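import Mathlib
import Pool.Agent.H33.Majority

set_option autoImplicit false

namespace Pool.Agent.Results.MP_0e3695_co.NoThreshold

open Pool.Agent.H33.Majority

theorem result : ∀ k : ℕ, ∃ (V : Type) (_ : Fintype V) (R B : SimpleGraph V), Disjoint R B ∧
    (∀ v, k ≤ (R.neighborSet v).ncard ∧ k ≤ (B.neighborSet v).ncard) ∧
    ¬ ∃ p : V → Fin 3, ∀ v,
      2 * {u | R.Adj v u ∧ p u = p v}.ncard ≤ (R.neighborSet v).ncard ∧
      2 * {u | B.Adj v u ∧ p u = p v}.ncard ≤ (B.neighborSet v).ncard := by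
  intro k
  refine ⟨V (2 * k + 1), inferInstance, G _ true, G _ false, disj _, fun v => ?_, ?_⟩
  · have h1 := mindeg (2 * k + 1) v
    have h2 := euler (2 * k + 1) v
    constructor <;> omega
  · rintro ⟨p, hp⟩
    refine no_partition k p fun s v => ?_
    cases s
    · exact (hp v).2
    · exact (hp v).1

end Pool.Agent.Results.MP_0e3695_co.NoThreshold
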